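import Mathlib

/-!
Changes of Weierstrass equations, on points.
-/

set_option autoImplicit false

open WeierstrassCurve

namespace Pool.Agent.Y700

/-- `W'` is obtained from `W` by the change of variables `X = u² x + r`, `Y = u³ y + u² s x + t` -/
structure VR {F : Type*} [Field F] (W W' : WeierstrassCurve F) (u r s t : F) : Prop where
  u0 : u ≠ 0
  e1 : u * W'.a₁ = W.a₁ + 2 * s
  e2 : u ^ 2 * W'.a₂ = W.a₂ - s * W.a₁ + 3 * r - s ^ 2
  e3 : u ^ 3 * W'.a₃ = W.a₃ + r * W.a₁ + 2 * t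
  e4 : u ^ 4 * W'.a₄ = W.a₄ - s * W.a₃ + 2 * r * W.a₂ - (t + r * s) * W.a₁ + 3 * r ^ 2 - 2 * s * t
  e6 : u ^ 6 * W'.a₆ = W.a₆ + r * W.a₄ + r ^ 2 * W.a₂ + r ^ 3 - t * W.a₃ - t ^ 2 - r * t * W.a₁

theorem VR.map {F L : Type*} [Field F] [Field L] {W W' : WeierstrassCurve F} {u r s t : F}
    (h : VR W W' u r s t) (φ : F →+* L) : VR (W.map φ) (W'.map φ) (φ u) (φ r) (φ s) (φ t) where
  u0 := (map_ne_zero φ).2 h.u0
  e1 := by
    have k := congrArg φ h.e1
    simp only [map_mul, map_add, map_sub, map_pow, map_ofNat] at k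
    exact k
  e2 := by
    have k := congrArg φ h.e2
    simp only [map_mul, map_add, map_sub, map_pow, map_ofNat] at k
    exact k
  e3 := by
    have k := congrArg φ h.e3
    simp only [map_mul, map_add, map_sub, map_pow, map_ofNat] at k
    exact k
  e4 := by
    have k := congrArg φ h.e4
    simp only [map_mul, map_add, map_sub, map_pow, map_ofNat] at k
    exact k
  e6 := by
    have k := congrArg φ h.e6
    simp only [map_mul, map_add, map_sub, map_pow, map_ofNat] at k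
    exact k

section

variable {F : Type*} [Field F] {W W' : WeierstrassCurve F} {u r s t : F} (h : VR W W' u r s t)

include h

theorem VR.eqn {x y : F} :
    W.toAffine.Equation (u ^ 2 * x + r) (u ^ 3 * y + u ^ 2 * s * x + t) ↔ W'.toAffine.Equation x y := by
  rw [Affine.equation_iff, Affine.equation_iff]
  obtain ⟨u0, e1, e2, e3, e4, e6⟩ := h
  constructor
  · intro hh
    apply mul_left_cancel₀ (pow_ne_zero 6 u0)
    linear_combination hh + u ^ 5 * x * y * e1 + u ^ 3 * y * e3 - u ^ 4 * x ^ 2 * e2 -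
      u ^ 2 * x * e4 - e6
  · intro hh
    linear_combination u ^ 6 * hh - (u ^ 5 * x * y * e1 + u ^ 3 * y * e3 - u ^ 4 * x ^ 2 * e2 -
      u ^ 2 * x * e4 - e6)

theorem VR.delta : W.Δ = u ^ 12 * W'.Δ := by
  obtain ⟨u0, e1, e2, e3, e4, e6⟩ := h
  have b2 : u ^ 2 * W'.b₂ = W.b₂ + 12 * r := by
    simp only [WeierstrassCurve.b₂]
    linear_combination (u * W'.a₁ + W.a₁ + 2 * s) * e1 + 4 * e2
  have b4 : u ^ 4 * W'.b₄ = W.b₄ + r * W.b₂ + 6 * r ^ 2 := by
    simp only [WeierstrassCurve.b₂, WeierstrassCurve.b₄]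
    linear_combination 2 * e4 + (u ^ 3 * W'.a₃) * e1 + (W.a₁ + 2 * s) * e3
  have b6 : u ^ 6 * W'.b₆ = W.b₆ + 2 * r * W.b₄ + r ^ 2 * W.b₂ + 4 * r ^ 3 := by
    simp only [WeierstrassCurve.b₂, WeierstrassCurve.b₄, WeierstrassCurve.b₆]
    linear_combination 4 * e6 + (u ^ 3 * W'.a₃ + W.a₃ + r * W.a₁ + 2 * t) * e3
  have b8 : u ^ 8 * W'.b₈ = W.b₈ + 3 * r * W.b₆ + 3 * r ^ 2 * W.b₄ + r ^ 3 * W.b₂ + 3 * r ^ 4 := by
    have k : 4 * (u ^ 8 * W'.b₈) = (u ^ 2 * W'.b₂) * (u ^ 6 * W'.b₆) - (u ^ 4 * W'.b₄) ^ 2 := by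
      linear_combination (u ^ 8) * W'.b_relation
    by_cases h4 : (4 : F) = 0
    · -- characteristic two
      simp only [WeierstrassCurve.b₂, WeierstrassCurve.b₄, WeierstrassCurve.b₆,
        WeierstrassCurve.b₈]
      have f1 : u ^ 2 * W'.a₁ ^ 2 = (W.a₁ + 2 * s) ^ 2 := by rw [← e1]; ring
      have f3 : u ^ 6 * W'.a₃ ^ 2 = (W.a₃ + r * W.a₁ + 2 * t) ^ 2 := by rw [← e3]; ring
      have f4 : u ^ 8 * W'.a₄ ^ 2 = (W.a₄ - s * W.a₃ + 2 * r * W.a₂ - (t + r * s) * W.a₁ +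
        3 * r ^ 2 - 2 * s * t) ^ 2 := by rw [← e4]; ring
      have g1 : u ^ 8 * (W'.a₁ ^ 2 * W'.a₆) = (u ^ 2 * W'.a₁ ^ 2) * (u ^ 6 * W'.a₆) := by ring
      have g2 : u ^ 8 * (W'.a₂ * W'.a₆) = (u ^ 2 * W'.a₂) * (u ^ 6 * W'.a₆) := by ring
      have g3 : u ^ 8 * (W'.a₁ * W'.a₃ * W'.a₄) = (u * W'.a₁) * (u ^ 3 * W'.a₃) * (u ^ 4 * W'.a₄) := by
        ring
      have g4 : u ^ 8 * (W'.a₂ * W'.a₃ ^ 2) = (u ^ 2 * W'.a₂) * (u ^ 6 * W'.a₃ ^ 2) := by ring
      have e : u ^ 8 * (W'.a₁ ^ 2 * W'.a₆ + 4 * W'.a₂ * W'.a₆ - W'.a₁ * W'.a₃ * W'.a₄ +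
          W'.a₂ * W'.a₃ ^ 2 - W'.a₄ ^ 2) = u ^ 8 * (W'.a₁ ^ 2 * W'.a₆) +
          4 * (u ^ 8 * (W'.a₂ * W'.a₆)) - u ^ 8 * (W'.a₁ * W'.a₃ * W'.a₄) +
          u ^ 8 * (W'.a₂ * W'.a₃ ^ 2) - u ^ 8 * W'.a₄ ^ 2 := by ring
      rw [e, g1, g2, g3, g4, f1, f3, f4, e1, e2, e3, e4, e6]
      ring
    · apply mul_left_cancel₀ h4
      rw [k, b2, b4, b6]
      linear_combination -W.b_relation
  simp only [WeierstrassCurve.Δ]
  have e : u ^ 12 * (-W'.b₂ ^ 2 * W'.b₈ - 8 * W'.b₄ ^ 3 - 27 * W'.b₆ ^ 2 +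
      9 * W'.b₂ * W'.b₄ * W'.b₆) = -(u ^ 2 * W'.b₂) ^ 2 * (u ^ 8 * W'.b₈) -
      8 * (u ^ 4 * W'.b₄) ^ 3 - 27 * (u ^ 6 * W'.b₆) ^ 2 +
      9 * (u ^ 2 * W'.b₂) * (u ^ 4 * W'.b₄) * (u ^ 6 * W'.b₆) := by ring
  rw [e, b2, b4, b6, b8]
  linear_combination (6 * r * W.b₂ + 36 * r ^ 2) * W.b_relation

theorem VR.delta_ne (hD : W'.Δ ≠ 0) : W.Δ ≠ 0 := by
  rw [h.delta]
  exact mul_ne_zero (pow_ne_zero 12 h.u0) hD

theorem VR.negY (x y : F) : W.toAffine.negY (u ^ 2 * x + r) (u ^ 3 * y + u ^ 2 * s * x + t) =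
    u ^ 3 * W'.toAffine.negY x y + u ^ 2 * s * x + t := by
  obtain ⟨u0, e1, e2, e3, e4, e6⟩ := h
  simp only [Affine.negY]
  linear_combination u ^ 2 * x * e1 + e3

end

lemma nonsing {F : Type*} [Field F] {W : WeierstrassCurve F} (hD : W.Δ ≠ 0) {x y : F}
    (h : W.toAffine.Equation x y) : W.toAffine.Nonsingular x y :=
  (W.toAffine.equation_iff_nonsingular_of_Δ_ne_zero hD).1 h

/-- the map on points -/
def VR.fn {F : Type*} [Field F] {W W' : WeierstrassCurve F} {u r s t : F}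
    (h : VR W W' u r s t) (hD : W'.Δ ≠ 0) : W'.toAffine.Point → W.toAffine.Point
  | 0 => 0
  | .some x y hn => .some (u ^ 2 * x + r) (u ^ 3 * y + u ^ 2 * s * x + t)
      (nonsing (h.delta_ne hD) (h.eqn.2 hn.1))

theorem VR.fn_some {F : Type*} [Field F] {W W' : WeierstrassCurve F} {u r s t : F}
    (h : VR W W' u r s t) (hD : W'.Δ ≠ 0) {x y : F} (hn : W'.toAffine.Nonsingular x y) :
    h.fn hD (.some x y hn) = .some (u ^ 2 * x + r) (u ^ 3 * y + u ^ 2 * s * x + t)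
      (nonsing (h.delta_ne hD) (h.eqn.2 hn.1)) := rfl

section

variable {F : Type*} [Field F] [DecidableEq F] {W W' : WeierstrassCurve F} {u r s t : F}
  (h : VR W W' u r s t) (hD : W'.Δ ≠ 0)

theorem VR.fn_add (P Q : W'.toAffine.Point) : h.fn hD (P + Q) = h.fn hD P + h.fn hD Q := by
  have u0 := h.u0
  have u2 := pow_ne_zero 2 u0
  have u3 := pow_ne_zero 3 u0
  match P, Q with
  | 0, Q =>
    rw [zero_add]
    exact (zero_add _).symm
  | .some x y h, 0 =>
    rw [add_zero]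
    exact (add_zero _).symm
  | .some x1 y1 p1, .some x2 y2 p2 =>
    by_cases hne : x1 = x2 ∧ y1 = W'.toAffine.negY x2 y2
    · rw [Affine.Point.add_of_Y_eq hne.1 hne.2]
      have hx : u ^ 2 * x1 + r = u ^ 2 * x2 + r := by rw [hne.1]
      have hy : u ^ 3 * y1 + u ^ 2 * s * x1 + t =
          W.toAffine.negY (u ^ 2 * x2 + r) (u ^ 3 * y2 + u ^ 2 * s * x2 + t) := by
        rw [h.negY, hne.1, hne.2]
      change (0 : W.toAffine.Point) = _
      rw [VR.fn, VR.fn, Affine.Point.add_of_Y_eq hx hy]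
    · rw [Affine.Point.add_some hne]
      have hxx : u ^ 2 * x1 + r = u ^ 2 * x2 + r → x1 = x2 := by
        intro hh
        exact mul_left_cancel₀ u2 (add_right_cancel hh)
      have hne' : ¬(u ^ 2 * x1 + r = u ^ 2 * x2 + r ∧ u ^ 3 * y1 + u ^ 2 * s * x1 + t =
          W.toAffine.negY (u ^ 2 * x2 + r) (u ^ 3 * y2 + u ^ 2 * s * x2 + t)) := by
        rintro ⟨ha, hb⟩
        apply hne
        have hx := hxx ha
        refine ⟨hx, ?_⟩
        rw [h.negY, hx] at hb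
        apply mul_left_cancel₀ u3
        linear_combination hb
      have hslope : W.toAffine.slope (u ^ 2 * x1 + r) (u ^ 2 * x2 + r)
          (u ^ 3 * y1 + u ^ 2 * s * x1 + t) (u ^ 3 * y2 + u ^ 2 * s * x2 + t) =
          u * W'.toAffine.slope x1 x2 y1 y2 + s := by
        by_cases hx : x1 = x2
        · have hy : y1 ≠ W'.toAffine.negY x2 y2 := fun hh => hne ⟨hx, hh⟩
          have hy' : u ^ 3 * y1 + u ^ 2 * s * x1 + t ≠
              W.toAffine.negY (u ^ 2 * x2 + r) (u ^ 3 * y2 + u ^ 2 * s * x2 + t) :=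
            fun hh => hne' ⟨by rw [hx], hh⟩
          have hyy : y1 = y2 := Affine.Y_eq_of_Y_ne p1.1 p2.1 hx hy
          subst hx hyy
          rw [Affine.slope_of_Y_ne rfl hy', Affine.slope_of_Y_ne rfl hy]
          have hd1 : y1 - W'.toAffine.negY x1 y1 ≠ 0 := sub_ne_zero.mpr hy
          have k1 : u ^ 3 * y1 + u ^ 2 * s * x1 + t -
              W.toAffine.negY (u ^ 2 * x1 + r) (u ^ 3 * y1 + u ^ 2 * s * x1 + t) =
              u ^ 3 * (y1 - W'.toAffine.negY x1 y1) := by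
            rw [h.negY]
            ring
          rw [k1, div_eq_iff (mul_ne_zero u3 hd1)]
          have hc : (3 * x1 ^ 2 + 2 * W'.a₂ * x1 + W'.a₄ - W'.a₁ * y1) / (y1 - W'.toAffine.negY x1 y1) *
              (y1 - W'.toAffine.negY x1 y1) = 3 * x1 ^ 2 + 2 * W'.a₂ * x1 + W'.a₄ - W'.a₁ * y1 :=
            div_mul_cancel₀ _ hd1
          obtain ⟨-, e1, e2, e3, e4, e6⟩ := h
          have k3 : (u * ((3 * x1 ^ 2 + 2 * W'.a₂ * x1 + W'.a₄ - W'.a₁ * y1) /
              (y1 - W'.toAffine.negY x1 y1)) + s) * (u ^ 3 * (y1 - W'.toAffine.negY x1 y1)) =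
              u ^ 4 * (3 * x1 ^ 2 + 2 * W'.a₂ * x1 + W'.a₄ - W'.a₁ * y1) +
                s * u ^ 3 * (y1 - W'.toAffine.negY x1 y1) := by
            linear_combination (u ^ 4) * hc
          rw [k3]
          simp only [Affine.negY]
          linear_combination (u ^ 3 * y1 - s * u ^ 2 * x1) * e1 - 2 * u ^ 2 * x1 * e2 - e4 - s * e3
        · have hx' : u ^ 2 * x1 + r ≠ u ^ 2 * x2 + r := fun hh => hx (hxx hh)
          rw [Affine.slope_of_X_ne hx', Affine.slope_of_X_ne hx]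
          have hd1 : x1 - x2 ≠ 0 := sub_ne_zero.mpr hx
          have k1 : u ^ 2 * x1 + r - (u ^ 2 * x2 + r) = u ^ 2 * (x1 - x2) := by ring
          rw [k1]
          field_simp
          ring
      rw [VR.fn, VR.fn, VR.fn, Affine.Point.add_some hne']
      simp only [Affine.Point.some.injEq]
      rw [hslope]
      have hX : u ^ 2 * (W'.toAffine.addX x1 x2 (W'.toAffine.slope x1 x2 y1 y2)) + r =
          W.toAffine.addX (u ^ 2 * x1 + r) (u ^ 2 * x2 + r)
            (u * W'.toAffine.slope x1 x2 y1 y2 + s) := by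
        obtain ⟨-, e1, e2, e3, e4, e6⟩ := h
        simp only [Affine.addX]
        linear_combination u * W'.toAffine.slope x1 x2 y1 y2 * e1 - e2
      refine ⟨hX, ?_⟩
      rw [Affine.addY, Affine.addY, Affine.negAddY, Affine.negAddY, ← hX, ← h.negY]
      congr 1
      ring

omit [DecidableEq F] in
theorem VR.fn_bij : Function.Bijective (h.fn hD) := by
  have u0 := h.u0
  have u2 := pow_ne_zero 2 u0
  have u3 := pow_ne_zero 3 u0
  constructor
  · intro P Q hh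
    match P, Q with
    | 0, 0 => rfl
    | 0, .some x y p => exact absurd hh.symm (Affine.Point.some_ne_zero _)
    | .some x y p, 0 => exact absurd hh (Affine.Point.some_ne_zero _)
    | .some x1 y1 p1, .some x2 y2 p2 =>
      simp only [VR.fn, Affine.Point.some.injEq] at hh
      obtain ⟨ha, hb⟩ := hh
      have hx : x1 = x2 := mul_left_cancel₀ u2 (add_right_cancel ha)
      subst hx
      have hy : y1 = y2 := by
        apply mul_left_cancel₀ u3
        linear_combination hb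
      subst hy
      rfl
  · intro P
    match P with
    | 0 => exact ⟨0, rfl⟩
    | .some X Y p =>
      have hx : u ^ 2 * ((X - r) / u ^ 2) + r = X := by
        field_simp
        ring
      have hy : u ^ 3 * ((Y - u ^ 2 * s * ((X - r) / u ^ 2) - t) / u ^ 3) +
          u ^ 2 * s * ((X - r) / u ^ 2) + t = Y := by
        field_simp
        ring
      have heq : W'.toAffine.Equation ((X - r) / u ^ 2)
          ((Y - u ^ 2 * s * ((X - r) / u ^ 2) - t) / u ^ 3) := by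
        rw [← h.eqn, hx, hy]
        exact p.1
      refine ⟨.some _ _ (nonsing hD heq), ?_⟩
      simp only [VR.fn, Affine.Point.some.injEq]
      exact ⟨hx, hy⟩

/-- the isomorphism of the groups of points -/
noncomputable def VR.equiv : W'.toAffine.Point ≃+ W.toAffine.Point :=
  AddEquiv.mk' (Equiv.ofBijective _ (h.fn_bij hD)) (h.fn_add hD)

theorem VR.equiv_apply (P : W'.toAffine.Point) : h.equiv hD P = h.fn hD P := rfl

end

end Pool.Agent.Y700
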